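import Mathlib

set_option autoImplicit false

/-!
# A `q^(n-d+1)`-colouring of a Hamming-distance graph with a transition edge

The balls of radius one around the words of the ternary Hamming code of length `13` partition
`(ZMod 3)^13` into `3^10` sets of diameter two.  Hence the graph `H_3(13, 3)` has a proper
`3^10`-colouring, and since `3^(13-3+1) = 3^11`, spare colours can be given to two adjacent
vertices; the edge between them is a transition edge.
-/

namespace Pool.Agent.Results.MP_3553b5_co.TransitionEdgeExists

/-- The Hamming-distance graph `H_q(n, d)`: the vertices are the words of length `n` over `ZMod q`,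
and two distinct words are adjacent when their Hamming distance is at least `d`. -/
def hammingDistanceGraph (q n d : ℕ) : SimpleGraph (Fin n → ZMod q) where
  Adj x y := x ≠ y ∧ d ≤ hammingDist x y
  symm := ⟨fun x y h => ⟨h.1.symm, by rw [hammingDist_comm]; exact h.2⟩⟩
  loopless := ⟨fun x h => h.1 rfl⟩

/-- `K` is a proper colouring of `G`. -/
def IsProper {V C : Type*} (G : SimpleGraph V) (K : V → C) : Prop :=
  ∀ u v, G.Adj u v → K u ≠ K v

/-- The edge `{x, y}` of `G` is a transition edge for the colouring `K`: the map obtained from `K`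
by exchanging the values at `x` and `y` is again a proper colouring. -/
def IsTransitionEdge {V C : Type*} [DecidableEq V] (G : SimpleGraph V) (K : V → C) (x y : V) :
    Prop :=
  G.Adj x y ∧ IsProper G (fun v => K (Equiv.swap x y v))

/-- The parity check matrix: its columns are the points of the projective plane of order three, the
last three being the unit vectors. -/
def M : Matrix (Fin 3) (Fin 13) (ZMod 3) :=
  !![1, 1, 1, 1, 0, 0, 1, 1, 1, 1, 1, 0, 0;
     1, 2, 0, 0, 1, 1, 1, 1, 2, 2, 0, 1, 0;
     0, 0, 1, 2, 1, 2, 1, 2, 1, 2, 0, 0, 1]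

theorem covering : ∀ s : Fin 3 → ZMod 3, ∃ i : Fin 13, ∃ a : ZMod 3, ∀ k, M k i * a = s k := by
  decide

theorem exists_dec (s : Fin 3 → ZMod 3) :
    ∃ v : Fin 13 → ZMod 3, M.mulVec v = s ∧ hammingNorm v ≤ 1 := by
  obtain ⟨i, a, h⟩ := covering s
  refine ⟨Pi.single i a, ?_, ?_⟩
  · rw [Matrix.mulVec_single]
    ext k
    simp [h k]
  · unfold hammingNorm
    rw [Finset.card_le_one_iff_subset_singleton]
    refine ⟨i, fun j hj => ?_⟩
    rw [Finset.mem_filter] at hj
    rw [Finset.mem_singleton]
    by_contra hne
    exact hj.2 (by simp [hne])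

/-- the error vector with a given syndrome -/
noncomputable def dec (s : Fin 3 → ZMod 3) : Fin 13 → ZMod 3 := (exists_dec s).choose

/-- the code word next to `x` -/
noncomputable def near (x : Fin 13 → ZMod 3) : Fin 13 → ZMod 3 := x - dec (M.mulVec x)

theorem near_code (x : Fin 13 → ZMod 3) : M.mulVec (near x) = 0 := by
  unfold near
  rw [Matrix.mulVec_sub, dec, (exists_dec (M.mulVec x)).choose_spec.1, sub_self]

theorem near_dist (x : Fin 13 → ZMod 3) : hammingDist x (near x) ≤ 1 := by
  rw [hammingDist_comm, hammingDist_eq_hammingNorm]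
  have : -near x + x = dec (M.mulVec x) := by unfold near; abel
  rw [this]
  exact (exists_dec (M.mulVec x)).choose_spec.2

/-- a code word is determined by its first ten entries -/
theorem code_inj (w : Fin 13 → ZMod 3) (h : M.mulVec w = 0)
    (h0 : ∀ j : Fin 10, w (Fin.castLE (by norm_num) j) = 0) : w = 0 := by
  have a0 : w 0 = 0 := h0 0
  have a1 : w 1 = 0 := h0 1
  have a2 : w 2 = 0 := h0 2
  have a3 : w 3 = 0 := h0 3
  have a4 : w 4 = 0 := h0 4
  have a5 : w 5 = 0 := h0 5
  have a6 : w 6 = 0 := h0 6
  have a7 : w 7 = 0 := h0 7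
  have a8 : w 8 = 0 := h0 8
  have a9 : w 9 = 0 := h0 9
  have e : ∀ k : Fin 3, M.mulVec w k = M k 10 * w 10 + M k 11 * w 11 + M k 12 * w 12 := by
    intro k
    have h1 : M.mulVec w k = ∑ i : Fin 13, M k i * w i := rfl
    rw [h1, ← Finset.sum_subset (Finset.subset_univ ({10, 11, 12} : Finset (Fin 13)))]
    · rw [Finset.sum_insert (by decide), Finset.sum_insert (by decide), Finset.sum_singleton]
      ring
    · intro i _ hi
      have h2 : w i = 0 := by
        fin_cases i
        all_goals first | assumption | (exfalso; revert hi; decide)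
      rw [h2, mul_zero]
  have b0 : w 10 = 0 := by
    have := e 0
    rw [h] at this
    simpa [M] using this.symm
  have b1 : w 11 = 0 := by
    have := e 1
    rw [h] at this
    simpa [M] using this.symm
  have b2 : w 12 = 0 := by
    have := e 2
    rw [h] at this
    simpa [M] using this.symm
  ext i
  fin_cases i <;> simp [*]

/-- the proper `3^10`-colouring -/
noncomputable def K0 (x : Fin 13 → ZMod 3) : Fin 10 → ZMod 3 :=
  fun j => near x (Fin.castLE (by norm_num) j)

theorem K0_dist (x y : Fin 13 → ZMod 3) (h : K0 x = K0 y) : hammingDist x y ≤ 2 := by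
  have h1 : near x = near y := by
    rw [← sub_eq_zero]
    refine code_inj _ ?_ ?_
    · rw [Matrix.mulVec_sub, near_code, near_code, sub_self]
    · intro j
      have := congrFun h j
      simp only [K0] at this
      simp [this]
  calc hammingDist x y ≤ hammingDist x (near x) + hammingDist (near x) y := hammingDist_triangle _ _ _
    _ ≤ 1 + 1 := by
        refine Nat.add_le_add (near_dist x) ?_
        rw [h1, hammingDist_comm]
        exact near_dist y

/-- an injection of the `3^10` colours into the `3^11` available ones, avoiding the last two -/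
theorem exists_emb : ∃ φ : (Fin 10 → ZMod 3) → Fin (3 ^ 11), Function.Injective φ ∧
    ∀ c, (φ c).val < 3 ^ 10 := by
  have hcard : Fintype.card (Fin 10 → ZMod 3) = 3 ^ 10 := by
    rw [Fintype.card_fun, ZMod.card, Fintype.card_fin]
  let e := Fintype.equivFinOfCardEq hcard
  refine ⟨fun c => Fin.castLE (by norm_num) (e c), ?_, fun c => (e c).isLt⟩
  intro a b hab
  exact e.injective (Fin.castLE_injective _ hab)

/-- There are `q ≥ 3`, `2 ≤ d ≤ n` (namely `q = 3`, `n = 13`, `d = 3`) and a proper
`q^(n-d+1)`-colouring of the Hamming-distance graph `H_q(n, d)` with a transition edge. -/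
theorem result : ∃ K : (Fin 13 → ZMod 3) → Fin (3 ^ (13 - 3 + 1)),
    IsProper (hammingDistanceGraph 3 13 3) K ∧
      ∃ x y, IsTransitionEdge (hammingDistanceGraph 3 13 3) K x y := by
  classical
  obtain ⟨φ, hφ, hlt⟩ := exists_emb
  set x0 : Fin 13 → ZMod 3 := fun _ => 0 with hx0
  set y0 : Fin 13 → ZMod 3 := fun _ => 1 with hy0
  have hxy : x0 ≠ y0 := by
    intro h
    have := congrFun h 0
    simp [hx0, hy0] at this
  let K : (Fin 13 → ZMod 3) → Fin (3 ^ 11) := fun v =>
    if v = x0 then ⟨3 ^ 11 - 1, by norm_num⟩
    else if v = y0 then ⟨3 ^ 11 - 2, by norm_num⟩ else φ (K0 v)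
  have hKx : K x0 = ⟨3 ^ 11 - 1, by norm_num⟩ := by simp [K]
  have hKy : K y0 = ⟨3 ^ 11 - 2, by norm_num⟩ := by simp [K, hxy.symm]
  have hKo : ∀ v, v ≠ x0 → v ≠ y0 → K v = φ (K0 v) := by
    intro v h1 h2
    simp [K, h1, h2]
  -- equal colours
  have key : ∀ u v, K u = K v → u = v ∨
      (u ≠ x0 ∧ u ≠ y0 ∧ v ≠ x0 ∧ v ≠ y0 ∧ hammingDist u v ≤ 2) := by
    intro u v h
    by_cases h1 : u = x0 <;> by_cases h2 : u = y0 <;> by_cases h3 : v = x0 <;>
      by_cases h4 : v = y0
    all_goals first
      | (exact absurd (h1.symm.trans h2) hxy)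
      | (exact absurd (h3.symm.trans h4) hxy)
      | (exact Or.inl (h1.trans h3.symm))
      | (exact Or.inl (h2.trans h4.symm))
      | skip
    · exfalso
      rw [h1, h4, hKx, hKy, Fin.mk.injEq] at h
      norm_num at h
    · exfalso
      rw [h1, hKx, hKo v h3 h4] at h
      have := hlt (K0 v)
      rw [← h] at this
      norm_num at this
    · exfalso
      rw [h2, h3, hKx, hKy, Fin.mk.injEq] at h
      norm_num at h
    · exfalso
      rw [h2, hKy, hKo v h3 h4] at h
      have := hlt (K0 v)
      rw [← h] at this
      norm_num at this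
    · exfalso
      rw [h3, hKx, hKo u h1 h2] at h
      have := hlt (K0 u)
      rw [h] at this
      norm_num at this
    · exfalso
      rw [h4, hKy, hKo u h1 h2] at h
      have := hlt (K0 u)
      rw [h] at this
      norm_num at this
    · right
      rw [hKo u h1 h2, hKo v h3 h4] at h
      exact ⟨h1, h2, h3, h4, K0_dist u v (hφ h)⟩
  refine ⟨K, ?_, x0, y0, ⟨hxy, ?_⟩, ?_⟩
  · intro u v huv h
    rcases key u v h with h' | h'
    · exact huv.1 h'
    · have := huv.2
      omega
  · have : hammingDist x0 y0 = 13 := by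
      simp [hammingDist, hx0, hy0]
    rw [this]
    norm_num
  · intro u v huv h
    rcases key _ _ h with h' | ⟨h1, h2, h3, h4, h5⟩
    · exact huv.1 ((Equiv.swap x0 y0).injective h')
    · have hu : Equiv.swap x0 y0 u = u := by
        refine Equiv.swap_apply_of_ne_of_ne ?_ ?_
        · rintro rfl
          exact h2 (Equiv.swap_apply_left _ _)
        · rintro rfl
          exact h1 (Equiv.swap_apply_right _ _)
      have hv : Equiv.swap x0 y0 v = v := by
        refine Equiv.swap_apply_of_ne_of_ne ?_ ?_
        · rintro rfl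
          exact h4 (Equiv.swap_apply_left _ _)
        · rintro rfl
          exact h3 (Equiv.swap_apply_right _ _)
      rw [hu, hv] at h5
      have := huv.2
      omega

end Pool.Agent.Results.MP_3553b5_co.TransitionEdgeExists
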